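import Pool.Agent.Q17.DM.Stm
import Pool.Agent.Q224.OS.WPX
import Pool.Agent.Q17.WR.Fin

/-!
# Project DM (helper17), job WZM

The alternating sums `WZ` of the wreath product `Wc G r` for subgroups of the base group.
-/

set_option autoImplicit false

open scoped Classical

noncomputable section

namespace Pool.Agent.Q92.DM

open Pool.Agent.H254R3.IN hiding NN
open Pool.Agent.Y63.KR Pool.Agent.Q17.WR Pool.Agent.Q17.DC Pool.Agent.Q17.AM Pool.Agent.Q17.OS
open Pool.Agent.Q17.DM Pool.Agent.Q18.KRX Pool.Agent.Q224.OS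

section

variable {G : Type} [Group G] {r : ℕ} [hr : Fact r.Prime]

/-- the element of the base group with the components `m ω` -/
def bm (m : Cy r → G) : Wc G r := ⟨m, 1⟩

theorem mul_left' (x y : Wc G r) (hx : x.right = 1) (ω : Cy r) :
    (x * y).left ω = x.left ω * y.left ω := by
  have h : (x * y).left ω = x.left ω * y.left (x.right⁻¹ * ω) := rfl
  rw [h, hx, inv_one, one_mul]

theorem inv_left' (x : Wc G r) (hx : x.right = 1) (ω : Cy r) :
    (x⁻¹).left ω = (x.left ω)⁻¹ := by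
  have h : (x⁻¹).left ω = (x.left (x.right * ω))⁻¹ := by
    change (x.left ((x.right⁻¹)⁻¹ * ω))⁻¹ = _
    rw [inv_inv]
  rw [h, hx, one_mul]

theorem inv_right' (x : Wc G r) (hx : x.right = 1) : (x⁻¹).right = 1 := by
  rw [SemidirectProduct.inv_right, hx, inv_one]

theorem mul_right' (x y : Wc G r) (hx : x.right = 1) (hy : y.right = 1) : (x * y).right = 1 := by
  rw [SemidirectProduct.mul_right, hx, hy, one_mul]

theorem pow_right' (x : Wc G r) (n : ℕ) : (x ^ n).right = x.right ^ n :=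
  map_pow (SemidirectProduct.rightHom : Wc G r →* Cy r) x n

theorem pow_left' (x : Wc G r) (hx : x.right = 1) (n : ℕ) (ω : Cy r) :
    (x ^ n).left ω = x.left ω ^ n := by
  induction n with
  | zero =>
    rw [pow_zero, pow_zero]
    rfl
  | succ n ih =>
    rw [pow_succ, pow_succ, mul_left' _ _ (by rw [pow_right', hx, one_pow]), ih]

theorem conj_left' (k x : Wc G r) (hk : k.right = 1) (hx : x.right = 1) (ω : Cy r) :
    (k * x * k⁻¹).left ω = k.left ω * x.left ω * (k.left ω)⁻¹ := by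
  rw [mul_left' _ _ (mul_right' _ _ hk hx), mul_left' _ _ hk, inv_left' _ hk]

theorem conj_right' (k x : Wc G r) (hk : k.right = 1) : (k * x * k⁻¹).right = x.right := by
  rw [SemidirectProduct.mul_right, SemidirectProduct.mul_right, SemidirectProduct.inv_right, hk,
    inv_one, one_mul, mul_one]

omit hr in
theorem ext' (x y : Wc G r) (h : x.right = y.right) (h2 : ∀ ω, x.left ω = y.left ω) : x = y :=
  SemidirectProduct.ext (funext h2) h

theorem mem_cmp {ω : Cy r} {K : Subgroup (Wc G r)} {g : G} :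
    g ∈ cmp ω K ↔ ∃ x ∈ K, x.right = 1 ∧ x.left ω = g := Iff.rfl

theorem mem_Pw {Q : Cy r → Subgroup G} {x : Wc G r} :
    x ∈ Pw Q ↔ x.right = 1 ∧ ∀ ω, x.left ω ∈ Q ω := Iff.rfl

theorem single_mem {Q : Cy r → Subgroup G} {ω : Cy r} {g : G} :
    bm (Function.update (fun _ => 1) ω g) ∈ Pw Q ↔ g ∈ Q ω := by
  rw [mem_Pw]
  constructor
  · rintro ⟨-, h⟩
    have h2 := h ω
    change Function.update (fun _ => (1 : G)) ω g ω ∈ Q ω at h2
    rwa [Function.update_self] at h2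
  · intro h
    refine ⟨rfl, fun η => ?_⟩
    change Function.update (fun _ => (1 : G)) ω g η ∈ Q η
    by_cases hη : η = ω
    · subst hη
      rwa [Function.update_self]
    · rw [Function.update_of_ne hη]
      exact (Q η).one_mem

theorem cmp_Pw (Q : Cy r → Subgroup G) (ω : Cy r) : cmp ω (Pw Q) = Q ω := by
  ext g
  rw [mem_cmp]
  constructor
  · rintro ⟨x, ⟨-, hx⟩, -, rfl⟩
    exact hx ω
  · intro hg
    refine ⟨bm (Function.update (fun _ => 1) ω g), single_mem.2 hg, rfl, ?_⟩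
    change Function.update (fun _ => (1 : G)) ω g ω = g
    rw [Function.update_self]

theorem cmp_mono {P Q : Subgroup (Wc G r)} (h : P ≤ Q) (ω : Cy r) : cmp ω P ≤ cmp ω Q := by
  rintro g ⟨x, hx, h1, h2⟩
  exact ⟨x, h hx, h1, h2⟩

theorem Pw_mono {Q Q' : Cy r → Subgroup G} (h : ∀ ω, Q ω ≤ Q' ω) : Pw Q ≤ Pw Q' := by
  rintro x ⟨h1, h2⟩
  exact ⟨h1, fun ω => h ω (h2 ω)⟩

theorem Pw_le_iff {Q Q' : Cy r → Subgroup G} : Pw Q ≤ Pw Q' ↔ ∀ ω, Q ω ≤ Q' ω := by
  constructor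
  · intro h ω
    have := cmp_mono h ω
    rwa [cmp_Pw, cmp_Pw] at this
  · exact Pw_mono

theorem Pw_bot : Pw (fun _ => ⊥ : Cy r → Subgroup G) = ⊥ := by
  rw [eq_bot_iff]
  rintro x ⟨h1, h2⟩
  rw [Subgroup.mem_bot]
  exact ext' _ _ h1 fun ω => Subgroup.mem_bot.1 (h2 ω)

theorem le_Pw_cmp {P : Subgroup (Wc G r)} (h : ∀ x ∈ P, x.right = 1) :
    P ≤ Pw (fun ω => cmp ω P) := by
  intro x hx
  exact ⟨h x hx, fun ω => ⟨x, hx, h x hx, rfl⟩⟩

theorem right_of_isPGroup {p : ℕ} [hp : Fact p.Prime] (hpr : p ≠ r) {P : Subgroup (Wc G r)}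
    (h : IsPGroup p P) : ∀ x ∈ P, x.right = 1 := by
  intro x hx
  obtain ⟨k, hk⟩ := h ⟨x, hx⟩
  have h1 : x ^ p ^ k = 1 := congrArg Subtype.val hk
  have h2 : x.right ^ p ^ k = 1 := by
    rw [← pow_right', h1]
    rfl
  have h3 : x.right ^ r = 1 := by
    have := pow_card_eq_one' (G := Cy r) (x := x.right)
    have h4 : Nat.card (Cy r) = r := Nat.card_zmod r
    rwa [h4] at this
  have h5 : orderOf x.right ∣ Nat.gcd (p ^ k) r :=
    Nat.dvd_gcd (orderOf_dvd_of_pow_eq_one h2) (orderOf_dvd_of_pow_eq_one h3)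
  have h6 : Nat.gcd (p ^ k) r = 1 :=
    Nat.Coprime.pow_left k ((Nat.coprime_primes hp.out hr.out).2 hpr)
  rw [h6, Nat.dvd_one, orderOf_eq_one_iff] at h5
  exact h5

theorem isPGroup_cmp {p : ℕ} {P : Subgroup (Wc G r)} (h : IsPGroup p P) (ω : Cy r) :
    IsPGroup p (cmp ω P) := by
  rintro ⟨g, x, hx, h1, rfl⟩
  obtain ⟨k, hk⟩ := h ⟨x, hx⟩
  refine ⟨k, Subtype.ext ?_⟩
  have h2 : x ^ p ^ k = 1 := congrArg Subtype.val hk
  change x.left ω ^ p ^ k = 1
  rw [← pow_left' x h1, h2]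
  rfl

theorem isPGroup_Pw [Finite G] {p : ℕ} [hp : Fact p.Prime] {Q : Cy r → Subgroup G}
    (h : ∀ ω, IsPGroup p (Q ω)) : IsPGroup p (Pw Q) := by
  rintro ⟨x, h1, h2⟩
  refine ⟨Nat.card G, Subtype.ext ?_⟩
  change x ^ p ^ (Nat.card G) = 1
  refine ext' _ _ ?_ fun ω => ?_
  · rw [pow_right', h1, one_pow]
    rfl
  · rw [pow_left' x h1]
    change x.left ω ^ p ^ (Nat.card G) = 1
    obtain ⟨k, hk⟩ := h ω ⟨x.left ω, h2 ω⟩
    have h3 : x.left ω ^ p ^ k = 1 := congrArg Subtype.val hk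
    obtain ⟨j, -, hj2⟩ := (Nat.dvd_prime_pow hp.out).1 (orderOf_dvd_of_pow_eq_one h3)
    have h4 : j ≤ Nat.card G := by
      have h5 : orderOf (x.left ω) ≤ Nat.card G :=
        Nat.le_of_dvd Nat.card_pos (orderOf_dvd_natCard _)
      rw [hj2] at h5
      exact (Nat.lt_pow_self hp.out.one_lt).le.trans h5
    apply orderOf_dvd_iff_pow_eq_one.1
    rw [hj2]
    exact pow_dvd_pow p h4

theorem le_norm_Pw_iff {K : Subgroup (Wc G r)} (hK : ∀ x ∈ K, x.right = 1)
    (Q : Cy r → Subgroup G) :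
    K ≤ Subgroup.normalizer ((Pw Q : Subgroup (Wc G r)) : Set (Wc G r)) ↔
      ∀ ω, (Q17.DM.cmp ω K : Subgroup G) ≤ Subgroup.normalizer (Q ω : Set G) := by
  constructor
  · intro h ω
    rintro _ ⟨k, hk, hk1, rfl⟩
    have h2 := Subgroup.mem_normalizer_iff.1 (h hk)
    rw [Subgroup.mem_normalizer_iff]
    intro g
    have h3 := h2 (bm (Function.update (fun _ => 1) ω g))
    have h4 : k * bm (Function.update (fun _ => 1) ω g) * k⁻¹ =
        bm (Function.update (fun _ => 1) ω (k.left ω * g * (k.left ω)⁻¹)) := by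
      refine ext' _ _ (conj_right' _ _ hk1) fun η => ?_
      rw [conj_left' _ _ hk1 rfl]
      change k.left η * Function.update (fun _ => (1 : G)) ω g η * (k.left η)⁻¹ =
        Function.update (fun _ => (1 : G)) ω (k.left ω * g * (k.left ω)⁻¹) η
      by_cases hη : η = ω
      · subst hη
        rw [Function.update_self, Function.update_self]
      · rw [Function.update_of_ne hη, Function.update_of_ne hη, mul_one, mul_inv_cancel]
    rw [h4] at h3
    change bm _ ∈ Pw Q ↔ bm _ ∈ Pw Q at h3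
    rwa [single_mem, single_mem] at h3
  · intro h k hk
    have hk1 := hK k hk
    rw [Subgroup.mem_normalizer_iff]
    intro x
    change x ∈ Pw Q ↔ k * x * k⁻¹ ∈ Pw Q
    rw [mem_Pw, mem_Pw, conj_right' _ _ hk1]
    refine and_congr_right fun hx => forall_congr' fun ω => ?_
    rw [conj_left' _ _ hk1 hx]
    exact Subgroup.mem_normalizer_iff.1 (h ω ⟨k, hk, hk1, rfl⟩) _

theorem norm_cmp {K P : Subgroup (Wc G r)}
    (h : K ≤ Subgroup.normalizer (P : Set (Wc G r))) (ω : Cy r) :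
    cmp ω K ≤ Subgroup.normalizer ((cmp ω P : Subgroup G) : Set G) := by
  rintro _ ⟨k, hk, hk1, rfl⟩
  have h2 := Subgroup.mem_normalizer_iff.1 (h hk)
  have h3 := Subgroup.mem_normalizer_iff.1 (h (K.inv_mem hk))
  rw [Subgroup.mem_normalizer_iff]
  intro g
  constructor
  · rintro ⟨x, hx, hx1, rfl⟩
    exact ⟨k * x * k⁻¹, (h2 x).1 hx, by rw [conj_right' _ _ hk1, hx1], conj_left' _ _ hk1 hx1 ω⟩
  · rintro ⟨x, hx, hx1, hx2⟩
    refine ⟨k⁻¹ * x * k⁻¹⁻¹, (h3 x).1 hx, ?_, ?_⟩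
    · rw [conj_right' _ _ (inv_right' _ hk1), hx1]
    · rw [conj_left' _ _ (inv_right' _ hk1) hx1, inv_left' _ hk1, hx2]
      group

end

/-- The alternating sums for subgroups of the base group. -/
theorem t_WZM : S_WZM := by
  intro p r hp hr hpr G _ _ K hK
  have : NeZero r := ⟨hr.out.ne_zero⟩
  have : Finite (Cy r) := inferInstanceAs (Finite (ZMod r))
  have hfin : Finite (Wc G r) := inferInstance
  simp only [WZ_eq]
  rw [← Pool.Agent.Q177.WR.t_PRD (Cy r) (fun _ => Subgroup G)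
    (fun ω => GZ p ⊤ ⊥ (cmp ω K)) (fun ω => mem_GZ.2 ⟨IsPGroup.of_bot, bot_le, le_rfl, by
      rw [Subgroup.normalizer_eq_top]; exact le_top⟩)]
  rw [E_retract_up (fun P => Pw (fun ω => cmp ω P))]
  · rw [← E_image _ (fun Q : Cy r → Subgroup G => Pw Q) (fun Q _ Q' _ => Pw_le_iff)]
    congr 1
    ext P
    simp only [Finset.mem_filter, Finset.mem_image, Finset.mem_erase, Fintype.mem_piFinset]
    constructor
    · rintro ⟨⟨a, b⟩, c⟩
      obtain ⟨b1, -, -, b4⟩ := mem_GZ.1 b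
      refine ⟨fun ω => cmp ω P, ⟨?_, fun ω => mem_GZ.2 ⟨isPGroup_cmp b1 ω, le_top, bot_le,
        norm_cmp b4 ω⟩⟩, c⟩
      intro h
      apply a
      rw [← c, h]
      exact Pw_bot
    · rintro ⟨Q, ⟨a, b⟩, rfl⟩
      have b' := fun ω => mem_GZ.1 (b ω)
      refine ⟨⟨?_, mem_GZ.2 ⟨isPGroup_Pw fun ω => (b' ω).1, le_top, bot_le,
        (le_norm_Pw_iff hK Q).2 fun ω => (b' ω).2.2.2⟩⟩, ?_⟩
      · intro h
        apply a
        funext ω
        have h2 := congrArg (cmp ω) h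
        rw [cmp_Pw] at h2
        rw [h2, ← Pw_bot, cmp_Pw]
        rfl
      · simp only [cmp_Pw]
  · intro P hP
    obtain ⟨a, b⟩ := Finset.mem_erase.1 hP
    obtain ⟨b1, -, -, b4⟩ := mem_GZ.1 b
    have b0 := right_of_isPGroup hpr b1
    refine Finset.mem_erase.2 ⟨?_, mem_GZ.2 ⟨isPGroup_Pw (isPGroup_cmp b1), le_top, bot_le,
      (le_norm_Pw_iff hK _).2 (norm_cmp b4)⟩⟩
    intro h
    apply a
    rw [eq_bot_iff, ← h]
    exact le_Pw_cmp b0
  · intro P hP
    exact le_Pw_cmp (right_of_isPGroup hpr (mem_GZ.1 (Finset.mem_erase.1 hP).2).1)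
  · intro P _
    simp only [cmp_Pw]
  · intro P _ Q _ h
    exact Pw_mono (cmp_mono h)

end Pool.Agent.Q92.DM
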